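import Mathlib

/-!
# MP_7a64d7_lc: test-free PDL does not have the Craig interpolation property

The implication `phi0 → ¬ chi0` below is valid, its two sides share the letters `p, r` and the
atomic program `a`, and every interpolant would define `[(p?;a)*]r` on the models we use, which no
test-free formula does.
-/

set_option autoImplicit false

universe u

namespace Pool.Agent.Results.MP_7a64d7_lc.TestFreeNoCraig

/-- Test-free programs: regular expressions over the atomic programs `0, 1, 2, ...`. -/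
inductive Prog : Type where
  | atom (a : ℕ) : Prog
  | seq (α β : Prog) : Prog
  | choice (α β : Prog) : Prog
  | star (α : Prog) : Prog

/-- Formulas of test-free PDL over the proposition letters `0, 1, 2, ...`. -/
inductive Form : Type where
  | var (p : ℕ) : Form
  | bot : Form
  | neg (φ : Form) : Form
  | and (φ ψ : Form) : Form
  | box (α : Prog) (φ : Form) : Form

/-- The material implication `φ → ψ`, i.e. `¬ (φ ∧ ¬ ψ)`. -/
def Form.imp (φ ψ : Form) : Form := .neg (.and φ (.neg ψ))

/-- A Kripke model on the set of states `W`. -/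
structure Model (W : Type u) where
  /-- The relation of each atomic program. -/
  rel : ℕ → W → W → Prop
  /-- The valuation of the proposition letters. -/
  val : ℕ → W → Prop

/-- The relation denoted by a program. -/
def Model.prog {W : Type u} (M : Model W) : Prog → W → W → Prop
  | .atom a => M.rel a
  | .seq α β => fun w v => ∃ z, M.prog α w z ∧ M.prog β z v
  | .choice α β => fun w v => M.prog α w v ∨ M.prog β w v
  | .star α => Relation.ReflTransGen (M.prog α)

/-- Truth of a formula at a state. -/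
def Model.sat {W : Type u} (M : Model W) : Form → W → Prop
  | .var p => M.val p
  | .bot => fun _ => False
  | .neg φ => fun w => ¬ M.sat φ w
  | .and φ ψ => fun w => M.sat φ w ∧ M.sat ψ w
  | .box α φ => fun w => ∀ v, M.prog α w v → M.sat φ v

/-- Validity: truth at every state of every model. -/
def Valid (φ : Form) : Prop := ∀ (W : Type u) (M : Model W) (w : W), M.sat φ w

/-- The atomic programs occurring in a program. -/
def Prog.atoms : Prog → Set ℕ
  | .atom a => {a}
  | .seq α β => α.atoms ∪ β.atoms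
  | .choice α β => α.atoms ∪ β.atoms
  | .star α => α.atoms

/-- The proposition letters occurring in a formula. -/
def Form.letters : Form → Set ℕ
  | .var p => {p}
  | .bot => ∅
  | .neg φ => φ.letters
  | .and φ ψ => φ.letters ∪ ψ.letters
  | .box _ φ => φ.letters

/-- The atomic programs occurring in a formula. -/
def Form.progs : Form → Set ℕ
  | .var _ => ∅
  | .bot => ∅
  | .neg φ => φ.progs
  | .and φ ψ => φ.progs ∪ ψ.progs
  | .box α φ => α.atoms ∪ φ.progs

/-- The Craig interpolation property of test-free PDL. -/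
def CraigInterpolation : Prop :=
  ∀ φ ψ : Form, Valid.{u} (φ.imp ψ) →
    ∃ θ : Form, θ.letters ⊆ φ.letters ∩ ψ.letters ∧ θ.progs ⊆ φ.progs ∩ ψ.progs ∧
      Valid.{u} (φ.imp θ) ∧ Valid.{u} (θ.imp ψ)

/-! ## The formulas -/

/-- `[a*]` -/
def bs (φ : Form) : Form := .box (.star (.atom 0)) φ

/-- `[a]` -/
def bx (φ : Form) : Form := .box (.atom 0) φ

/-- `p` -/
def p : Form := .var 0
/-- `r` -/
def r : Form := .var 1
/-- `q` -/
def q : Form := .var 2
/-- `s` -/
def s : Form := .var 3
/-- `t` -/
def t : Form := .var 4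

/-- `q ∧ [a*]((q ∧ p) → [a]q) ∧ [a*](q → r)` -/
def phi0 : Form :=
  .and q (.and (bs ((Form.and q p).imp (bx q))) (bs (q.imp r)))

/-- `s ∧ [a*](¬s → [a]¬s) ∧ [a*]((s ∧ ¬p) → t) ∧ [a*](t → (s ∧ ¬r)) ∧ ¬[a*]¬t` -/
def chi0 : Form :=
  .and s (.and (bs ((Form.neg s).imp (bx (.neg s)))) (.and (bs ((Form.and s (.neg p)).imp t))
    (.and (bs (t.imp (.and s (.neg r)))) (.neg (bs (.neg t))))))

theorem sat_imp {W : Type u} (M : Model W) (φ ψ : Form) (w : W) :
    M.sat (φ.imp ψ) w ↔ (M.sat φ w → M.sat ψ w) := by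
  simp only [Form.imp, Model.sat]
  tauto

theorem sat_bs {W : Type u} (M : Model W) (φ : Form) (w : W) :
    M.sat (bs φ) w ↔ ∀ v, Relation.ReflTransGen (M.rel 0) w v → M.sat φ v := Iff.rfl

theorem sat_bx {W : Type u} (M : Model W) (φ : Form) (w : W) :
    M.sat (bx φ) w ↔ ∀ v, M.rel 0 w v → M.sat φ v := Iff.rfl

theorem sat_phi0 {W : Type u} (M : Model W) (w : W) : M.sat phi0 w ↔
    M.val 2 w ∧ (∀ v, Relation.ReflTransGen (M.rel 0) w v → M.val 2 v ∧ M.val 0 v →
      ∀ z, M.rel 0 v z → M.val 2 z) ∧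
    (∀ v, Relation.ReflTransGen (M.rel 0) w v → M.val 2 v → M.val 1 v) := by
  simp only [phi0, Model.sat, sat_bs, sat_imp, sat_bx, p, q, r]

theorem sat_chi0 {W : Type u} (M : Model W) (w : W) : M.sat chi0 w ↔
    M.val 3 w ∧ (∀ v, Relation.ReflTransGen (M.rel 0) w v → ¬ M.val 3 v →
      ∀ z, M.rel 0 v z → ¬ M.val 3 z) ∧
    (∀ v, Relation.ReflTransGen (M.rel 0) w v → M.val 3 v ∧ ¬ M.val 0 v → M.val 4 v) ∧
    (∀ v, Relation.ReflTransGen (M.rel 0) w v → M.val 4 v → M.val 3 v ∧ ¬ M.val 1 v) ∧
    ¬ ∀ v, Relation.ReflTransGen (M.rel 0) w v → ¬ M.val 4 v := by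
  simp only [chi0, Model.sat, sat_bs, sat_imp, sat_bx, p, s, r, t]

/-- `phi0 → ¬ chi0` is valid. -/
theorem valid_imp : Valid.{u} (phi0.imp (.neg chi0)) := by
  intro W M w
  rw [sat_imp]
  intro h1 h2
  rw [sat_phi0] at h1
  change M.sat chi0 w at h2
  rw [sat_chi0] at h2
  obtain ⟨q0, q1, q2⟩ := h1
  obtain ⟨s0, s1, s2, s3, s4⟩ := h2
  apply s4
  intro v hv ht
  -- along the path to `v`, all states satisfy `s`
  have key : ∀ x, Relation.ReflTransGen (M.rel 0) w x → M.val 3 x → M.val 2 x := by
    intro x hx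
    induction hx with
    | refl => intro _; exact q0
    | @tail y z hy hyz ih =>
      intro hz
      have hsy : M.val 3 y := by
        by_contra hn
        exact s1 y hy hn z hyz hz
      have hqy := ih hsy
      by_cases hpy : M.val 0 y
      · exact q1 y hy ⟨hqy, hpy⟩ z hyz
      · have hty := s2 y hy ⟨hsy, hpy⟩
        exact absurd (q2 y hy hqy) (s3 y hy hty).2
  have h5 := s3 v hv ht
  exact h5.2 (q2 v hv (key v hv h5.1))

/-! ## Exponent sets of programs over one atomic program -/

/-- The set of the numbers of steps of a program, every atomic program being one step. -/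
def E : Prog → Set ℕ
  | .atom _ => {1}
  | .seq α β => {k | ∃ i ∈ E α, ∃ j ∈ E β, k = i + j}
  | .choice α β => E α ∪ E β
  | .star α => (AddSubmonoid.closure (E α) : Set ℕ)

theorem E_nonempty (α : Prog) : (E α).Nonempty := by
  induction α with
  | atom a => exact ⟨1, rfl⟩
  | seq α β iα iβ =>
    obtain ⟨i, hi⟩ := iα
    obtain ⟨j, hj⟩ := iβ
    exact ⟨i + j, i, hi, j, hj, rfl⟩
  | choice α β iα iβ => exact iα.inl
  | star α iα => exact ⟨0, zero_mem _⟩

theorem E_dichotomy (α : Prog) :
    (∃ N, ∀ k ∈ E α, k ≤ N) ∨ ∃ c m, 0 < m ∧ ∀ k, c + m * k ∈ E α := by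
  induction α with
  | atom a => exact Or.inl ⟨1, fun k hk => le_of_eq hk⟩
  | seq α β iα iβ =>
    rcases iα with ⟨N, hN⟩ | ⟨c, m, hm, h⟩
    · rcases iβ with ⟨N', hN'⟩ | ⟨c, m, hm, h⟩
      · left
        refine ⟨N + N', ?_⟩
        rintro k ⟨i, hi, j, hj, rfl⟩
        exact add_le_add (hN i hi) (hN' j hj)
      · right
        obtain ⟨i, hi⟩ := E_nonempty α
        exact ⟨i + c, m, hm, fun k => ⟨i, hi, c + m * k, h k, by ring⟩⟩
    · right
      obtain ⟨j, hj⟩ := E_nonempty β
      exact ⟨c + j, m, hm, fun k => ⟨c + m * k, h k, j, hj, by ring⟩⟩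
  | choice α β iα iβ =>
    rcases iα with ⟨N, hN⟩ | ⟨c, m, hm, h⟩
    · rcases iβ with ⟨N', hN'⟩ | ⟨c, m, hm, h⟩
      · left
        refine ⟨max N N', ?_⟩
        rintro k (hk | hk)
        · exact (hN k hk).trans (le_max_left _ _)
        · exact (hN' k hk).trans (le_max_right _ _)
      · exact Or.inr ⟨c, m, hm, fun k => Or.inr (h k)⟩
    · exact Or.inr ⟨c, m, hm, fun k => Or.inl (h k)⟩
  | star α iα =>
    by_cases h0 : ∃ m ∈ E α, 0 < m
    · obtain ⟨m, hm, hpos⟩ := h0
      right
      refine ⟨0, m, hpos, fun k => ?_⟩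
      have h1 : k • m ∈ AddSubmonoid.closure (E α) :=
        AddSubmonoid.nsmul_mem _ (AddSubmonoid.subset_closure hm) k
      have h2 : 0 + m * k = k • m := by simp [mul_comm]
      rw [h2]
      exact h1
    · left
      push Not at h0
      refine ⟨0, fun k hk => ?_⟩
      have h1 : AddSubmonoid.closure (E α) ≤ ⊥ := by
        rw [AddSubmonoid.closure_le]
        intro m hm
        have := h0 m hm
        exact AddSubmonoid.mem_bot.2 (by omega)
      have h2 := h1 hk
      rw [AddSubmonoid.mem_bot] at h2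
      omega

/-! ## The models -/

/-- The models: the natural numbers with the successor relation; the letter `p` (number `0`) fails
exactly at the residue `A` modulo `n`, the letter `r` (number `1`) exactly at the residue `B`. -/
def mdl (n A B : ℕ) (V : ℕ → ℕ → Prop) : Model (ULift.{u} ℕ) where
  rel _ x y := y.down = x.down + 1
  val k x := match k with
    | 0 => x.down % n ≠ A
    | 1 => x.down % n ≠ B
    | k + 2 => V k x.down

theorem prog_iff (n A B : ℕ) (V : ℕ → ℕ → Prop) (α : Prog) (x y : ULift.{u} ℕ) :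
    (mdl n A B V).prog α x y ↔ ∃ k ∈ E α, y.down = x.down + k := by
  induction α generalizing x y with
  | atom a =>
    constructor
    · intro h; exact ⟨1, rfl, h⟩
    · rintro ⟨k, hk, h⟩
      have : k = 1 := hk
      subst this
      exact h
  | seq α β iα iβ =>
    constructor
    · rintro ⟨z, h1, h2⟩
      obtain ⟨i, hi, hz⟩ := (iα x z).1 h1
      obtain ⟨j, hj, hy⟩ := (iβ z y).1 h2
      exact ⟨i + j, ⟨i, hi, j, hj, rfl⟩, by rw [hy, hz]; ring⟩
    · rintro ⟨k, ⟨i, hi, j, hj, rfl⟩, hy⟩
      exact ⟨⟨x.down + i⟩, (iα _ _).2 ⟨i, hi, rfl⟩, (iβ _ _).2 ⟨j, hj, by rw [hy]; simp; ring⟩⟩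
  | choice α β iα iβ =>
    constructor
    · rintro (h | h)
      · obtain ⟨i, hi, hz⟩ := (iα x y).1 h
        exact ⟨i, Or.inl hi, hz⟩
      · obtain ⟨i, hi, hz⟩ := (iβ x y).1 h
        exact ⟨i, Or.inr hi, hz⟩
    · rintro ⟨k, hk | hk, h⟩
      · exact Or.inl ((iα x y).2 ⟨k, hk, h⟩)
      · exact Or.inr ((iβ x y).2 ⟨k, hk, h⟩)
  | star α iα =>
    constructor
    · intro h
      induction h with
      | refl => exact ⟨0, zero_mem _, rfl⟩
      | @tail y z _ hyz ih =>
        obtain ⟨k, hk, hy⟩ := ih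
        obtain ⟨j, hj, hz⟩ := (iα y z).1 hyz
        exact ⟨k + j, add_mem (S := AddSubmonoid ℕ) hk (AddSubmonoid.subset_closure hj),
          by rw [hz, hy]; ring⟩
    · rintro ⟨k, hk, hy⟩
      have hk' : k ∈ AddSubmonoid.closure (E α) := hk
      clear hk
      have hy' : y = ⟨x.down + k⟩ := by
        rcases y with ⟨y⟩
        simp only at hy
        rw [hy]
      clear hy
      subst hy'
      induction hk' using AddSubmonoid.closure_induction_right with
      | zero => exact Relation.ReflTransGen.refl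
      | add_right a _ b hb ih =>
        exact ih.tail ((iα _ _).2 ⟨b, hb, by simp; ring⟩)

theorem rtg_iff (n A B : ℕ) (V : ℕ → ℕ → Prop) (x y : ULift.{u} ℕ) :
    Relation.ReflTransGen ((mdl n A B V).rel 0) x y ↔ x.down ≤ y.down := by
  constructor
  · intro h
    induction h with
    | refl => exact le_rfl
    | @tail y z _ hyz ih =>
      have h1 : z.down = y.down + 1 := hyz
      omega
  · intro h
    obtain ⟨k, hk⟩ := Nat.exists_eq_add_of_le h
    have hy' : y = ⟨x.down + k⟩ := by
      rcases y with ⟨y⟩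
      simp only at hk
      rw [hk]
    subst hy'
    clear h hk
    induction k with
    | zero => exact Relation.ReflTransGen.refl
    | succ k ih => exact ih.tail rfl

/-- Two residues at distance `L` are not both met in a window of length at most `L`. -/
theorem window {n L D x j j' A B : ℕ} (hA : A < n) (hB : B < n)
    (hAB : A + L = B ∨ B + L = A) (hD : D < L) (hn : L + D < n) (hj : j ≤ D) (hj' : j' ≤ D)
    (h1 : (x + j) % n = A) (h2 : (x + j') % n = B) : False := by
  have e1 := Nat.div_add_mod (x + j) n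
  have e2 := Nat.div_add_mod (x + j') n
  rw [h1] at e1
  rw [h2] at e2
  generalize (x + j) / n = a at e1
  generalize (x + j') / n = b at e2
  rcases lt_trichotomy a b with h | h | h
  · have : n * (a + 1) ≤ n * b := Nat.mul_le_mul_left n h
    rw [mul_add] at this
    omega
  · subst h
    omega
  · have : n * (b + 1) ≤ n * a := Nat.mul_le_mul_left n h
    rw [mul_add] at this
    omega

/-- The residue where `p` fails in configuration `c`. -/
def cA (L : ℕ) (c : Bool) : ℕ := if c then L else 2 * L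

/-- The residue where `r` fails in configuration `c`. -/
def cB (L : ℕ) (c : Bool) : ℕ := if c then 2 * L else L

/-- Equality of the windows. -/
def Same (n L D : ℕ) (c c' : Bool) (x y : ℕ) : Prop :=
  ∀ j ≤ D, ((x + j) % n = cA L c ↔ (y + j) % n = cA L c') ∧
    ((x + j) % n = cB L c ↔ (y + j) % n = cB L c')

theorem exists_same {n L D : ℕ} (hD : D < L) (hn : 2 * L + D < n) (c c' : Bool) (x : ℕ) :
    ∃ y, Same n L D c c' x y := by
  have cab : ∀ c, cA L c < n ∧ cB L c < n ∧ (cA L c + L = cB L c ∨ cB L c + L = cA L c) ∧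
      D < cA L c ∧ D < cB L c := by
    intro c
    cases c <;> simp [cA, cB] <;> omega
  obtain ⟨a1, a2, a3, a4, a5⟩ := cab c
  obtain ⟨b1, b2, b3, b4, b5⟩ := cab c'
  by_cases hA : ∃ j ≤ D, (x + j) % n = cA L c
  · obtain ⟨j0, hj0, hx⟩ := hA
    have hy : (cA L c' + n - j0 + j0) % n = cA L c' := by
      rw [Nat.sub_add_cancel (by omega), Nat.add_mod_right, Nat.mod_eq_of_lt b1]
    refine ⟨cA L c' + n - j0, fun j hj => ⟨?_, ?_⟩⟩
    · have key : ∀ (z z' : ℕ) (C C' : ℕ), (z + j0) % n = C → (z' + j0) % n = C' →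
          (z + j) % n = C → (z' + j) % n = C' := by
        intro z z' C C' h1 h2 h3
        have h4 : z + j0 ≡ z + j [MOD n] := by
          change (z + j0) % n = (z + j) % n
          rw [h1, h3]
        have h5 : j0 ≡ j [MOD n] := Nat.ModEq.add_left_cancel' z h4
        have h6 : z' + j0 ≡ z' + j [MOD n] := Nat.ModEq.add_left z' h5
        rw [← h2]
        exact h6.symm
      exact ⟨key _ _ _ _ hx hy, key _ _ _ _ hy hx⟩
    · constructor
      · intro h; exact (window a1 a2 a3 hD (by omega) hj0 hj hx h).elim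
      · intro h; exact (window b1 b2 b3 hD (by omega) hj0 hj hy h).elim
  · by_cases hB : ∃ j ≤ D, (x + j) % n = cB L c
    · obtain ⟨j0, hj0, hx⟩ := hB
      have hy : (cB L c' + n - j0 + j0) % n = cB L c' := by
        rw [Nat.sub_add_cancel (by omega), Nat.add_mod_right, Nat.mod_eq_of_lt b2]
      refine ⟨cB L c' + n - j0, fun j hj => ⟨?_, ?_⟩⟩
      · constructor
        · intro h; exact (window a2 a1 (by omega) hD (by omega) hj0 hj hx h).elim
        · intro h; exact (window b2 b1 (by omega) hD (by omega) hj0 hj hy h).elim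
      · have key : ∀ (z z' : ℕ) (C C' : ℕ), (z + j0) % n = C → (z' + j0) % n = C' →
            (z + j) % n = C → (z' + j) % n = C' := by
          intro z z' C C' h1 h2 h3
          have h4 : z + j0 ≡ z + j [MOD n] := by
            change (z + j0) % n = (z + j) % n
            rw [h1, h3]
          have h5 : j0 ≡ j [MOD n] := Nat.ModEq.add_left_cancel' z h4
          have h6 : z' + j0 ≡ z' + j [MOD n] := Nat.ModEq.add_left z' h5
          rw [← h2]
          exact h6.symm
        exact ⟨key _ _ _ _ hx hy, key _ _ _ _ hy hx⟩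
    · refine ⟨0, fun j hj => ?_⟩
      have h0 : (0 + j) % n = j := by rw [zero_add, Nat.mod_eq_of_lt (by omega)]
      rw [h0]
      constructor
      · constructor
        · intro h; exact (hA ⟨j, hj, h⟩).elim
        · intro h; omega
      · constructor
        · intro h; exact (hB ⟨j, hj, h⟩).elim
        · intro h; omega

/-- The configuration models. -/
def cm (n L : ℕ) (c : Bool) (V : ℕ → ℕ → Prop) : Model (ULift.{u} ℕ) := mdl n (cA L c) (cB L c) V

/-- Truth of a formula in the letters `p, r` only depends on a window. -/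
theorem invariance (ψ : Form) (hψ : ψ.letters ⊆ {0, 1}) :
    ∃ D M, 0 < M ∧ ∀ L n, D < L → 2 * L + D < n → Nat.Coprime M n →
      ∀ (c c' : Bool) (V V' : ℕ → ℕ → Prop) (x y : ℕ), Same n L D c c' x y →
        ((cm.{u} n L c V).sat ψ ⟨x⟩ ↔ (cm.{u} n L c' V').sat ψ ⟨y⟩) := by
  induction ψ with
  | var k =>
    refine ⟨0, 1, one_pos, fun L n _ _ _ c c' V V' x y h => ?_⟩
    have h0 := h 0 le_rfl
    rw [add_zero, add_zero] at h0
    have hk : k = 0 ∨ k = 1 := hψ rfl
    rcases hk with rfl | rfl
    · exact not_congr h0.1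
    · exact not_congr h0.2
  | bot => exact ⟨0, 1, one_pos, fun L n _ _ _ c c' V V' x y h => Iff.rfl⟩
  | neg φ ih =>
    obtain ⟨D, M, hM, h⟩ := ih hψ
    exact ⟨D, M, hM, fun L n h1 h2 h3 c c' V V' x y hs => not_congr (h L n h1 h2 h3 c c' V V' x y hs)⟩
  | and φ ψ ih1 ih2 =>
    obtain ⟨D, M, hM, h⟩ := ih1 fun z hz => hψ (Or.inl hz)
    obtain ⟨D', M', hM', h'⟩ := ih2 fun z hz => hψ (Or.inr hz)
    refine ⟨D + D', M * M', Nat.mul_pos hM hM', fun L n h1 h2 h3 c c' V V' x y hs => and_congr ?_ ?_⟩
    · exact h L n (by omega) (by omega) (Nat.Coprime.coprime_mul_right h3) c c' V V' x y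
        fun j hj => hs j (by omega)
    · exact h' L n (by omega) (by omega) (Nat.Coprime.coprime_mul_left h3) c c' V V' x y
        fun j hj => hs j (by omega)
  | box α φ ih =>
    obtain ⟨D, M, hM, h⟩ := ih hψ
    have hbox : ∀ (n L : ℕ) (c : Bool) (V : ℕ → ℕ → Prop) (x : ℕ),
        (cm.{u} n L c V).sat (.box α φ) ⟨x⟩ ↔ ∀ k ∈ E α, (cm.{u} n L c V).sat φ ⟨x + k⟩ := by
      intro n L c V x
      constructor
      · intro h1 k hk
        exact h1 _ ((prog_iff _ _ _ _ _ _ _).2 ⟨k, hk, rfl⟩)
      · intro h1 y hy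
        obtain ⟨k, hk, e⟩ := (prog_iff _ _ _ _ _ _ _).1 hy
        have e' : y = ⟨x + k⟩ := by
          rcases y with ⟨y⟩
          simp only at e
          rw [e]
        rw [e']
        exact h1 k hk
    rcases E_dichotomy α with ⟨N, hN⟩ | ⟨c0, m, hm, hE⟩
    · refine ⟨D + N, M, hM, fun L n h1 h2 h3 c c' V V' x y hs => ?_⟩
      rw [hbox, hbox]
      refine forall₂_congr fun k hk => ?_
      refine h L n (by omega) (by omega) h3 c c' V V' _ _ fun j hj => ?_
      have := hs (k + j) (by have := hN k hk; omega)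
      rwa [← add_assoc, ← add_assoc] at this
    · refine ⟨D, M * m, Nat.mul_pos hM hm, fun L n h1 h2 h3 c c' V V' x y hs => ?_⟩
      have hcop : Nat.Coprime M n := Nat.Coprime.coprime_mul_right h3
      have hcm : Nat.Coprime m n := Nat.Coprime.coprime_mul_left h3
      -- the box is global
      have hglob : ∀ (c : Bool) (V : ℕ → ℕ → Prop) (x : ℕ),
          (cm.{u} n L c V).sat (.box α φ) ⟨x⟩ ↔ ∀ z, (cm.{u} n L c V).sat φ ⟨z⟩ := by
        intro c V x
        rw [hbox]
        constructor
        · intro h4 z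
          -- find `k` with `x + c0 + m * k ≡ z` modulo `n`
          obtain ⟨k, hk⟩ : ∃ k, x + c0 + m * k ≡ z [MOD n] := by
            obtain ⟨k, -, hk⟩ := Nat.exists_mul_mod_eq_of_coprime (z + (n * (x + c0) - (x + c0))) hcm
              (by omega)
            refine ⟨k, ?_⟩
            have h5 : m * k ≡ z + (n * (x + c0) - (x + c0)) [MOD n] := hk
            have h6 : x + c0 ≤ n * (x + c0) := Nat.le_mul_of_pos_left _ (by omega)
            have h7 := Nat.ModEq.add_left (x + c0) h5
            have h8 : x + c0 + (z + (n * (x + c0) - (x + c0))) = z + n * (x + c0) := by omega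
            rw [h8] at h7
            refine h7.trans ?_
            change (z + n * (x + c0)) % n = z % n
            simp
          have h5 := h4 (c0 + m * k) (hE k)
          refine (h L n h1 h2 hcop c c V V _ _ fun j hj => ?_).1 h5
          have h6 : (x + (c0 + m * k) + j) % n = (z + j) % n := by
            have := Nat.ModEq.add_right j hk
            rw [← add_assoc]
            exact this
          rw [h6]
          exact ⟨Iff.rfl, Iff.rfl⟩
        · intro h4 k _
          exact h4 _
      rw [hglob, hglob]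
      constructor
      · intro h4 z
        obtain ⟨z', hz'⟩ := exists_same (D := D) h1 h2 c' c z
        exact (h L n h1 h2 hcop c' c V' V _ _ hz').2 (h4 z')
      · intro h4 z
        obtain ⟨z', hz'⟩ := exists_same (D := D) h1 h2 c c' z
        exact (h L n h1 h2 hcop c c' V V' _ _ hz').2 (h4 z')

/-- `phi0` holds at `0` in the second configuration. -/
theorem phi0_holds {n L : ℕ} (hL : 0 < L) (hn : 2 * L < n) :
    (cm.{u} n L true fun _ x => x ≤ L).sat phi0 ⟨0⟩ := by
  rw [sat_phi0]
  have hm : ∀ y ≤ L, y % n = y := fun y hy => Nat.mod_eq_of_lt (by omega)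
  refine ⟨Nat.zero_le _, ?_, ?_⟩
  · rintro ⟨v⟩ _ ⟨h1, h2⟩ ⟨z⟩ h3
    have h1' : v ≤ L := h1
    have h2' : v % n ≠ cA L true := h2
    have h3' : z = v + 1 := h3
    change z ≤ L
    rw [hm v h1'] at h2'
    simp only [cA, if_true] at h2'
    omega
  · rintro ⟨v⟩ _ h1
    have h1' : v ≤ L := h1
    change v % n ≠ cB L true
    rw [hm v h1']
    simp only [cB, if_true]
    omega

/-- `chi0` holds at `0` in the first configuration. -/
theorem chi0_holds {n L : ℕ} (hL : 0 < L) (hn : 2 * L < n) :
    (cm.{u} n L false fun k x => if k = 1 then x ≤ L else x = L).sat chi0 ⟨0⟩ := by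
  rw [sat_chi0]
  have hm : ∀ y ≤ L, y % n = y := fun y hy => Nat.mod_eq_of_lt (by omega)
  refine ⟨Nat.zero_le _, ?_, ?_, ?_, ?_⟩
  · rintro ⟨v⟩ _ h1 ⟨z⟩ h3
    have h1' : ¬ v ≤ L := h1
    have h3' : z = v + 1 := h3
    change ¬ z ≤ L
    omega
  · rintro ⟨v⟩ _ ⟨h1, h2⟩
    exfalso
    apply h2
    have h1' : v ≤ L := h1
    change v % n ≠ cA L false
    rw [hm v h1']
    simp [cA]
    omega
  · rintro ⟨v⟩ _ h1
    have h1' : v = L := h1
    refine ⟨?_, ?_⟩
    · change v ≤ L
      omega
    · change ¬ (v % n ≠ cB L false)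
      rw [hm v h1'.le]
      simp [cB, h1']
  · intro h
    refine h ⟨L⟩ ?_ rfl
    exact (rtg_iff _ _ _ _ _ _).2 (Nat.zero_le _)

theorem letters_phi : phi0.letters ⊆ {0, 1, 2} := by
  simp [phi0, bs, bx, p, q, r, Form.letters, Form.imp, Set.insert_subset_iff]

theorem letters_chi : (Form.neg chi0).letters ⊆ {0, 1, 3, 4} := by
  simp [chi0, bs, bx, p, s, t, r, Form.letters, Form.imp, Set.insert_subset_iff]

/-- **Test-free PDL does not have the Craig interpolation property.** -/
theorem result : ¬ CraigInterpolation.{u} := by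
  intro hC
  obtain ⟨θ, h1, -, h2, h3⟩ := hC phi0 (.neg chi0) valid_imp
  have hlet : θ.letters ⊆ {0, 1} := by
    intro z hz
    have h4 := letters_phi (h1 hz).1
    have h5 := letters_chi (h1 hz).2
    simp only [Set.mem_insert_iff, Set.mem_singleton_iff] at h4 h5 ⊢
    omega
  obtain ⟨D, M, hM, hinv⟩ := invariance.{u} θ hlet
  have hn : 2 * (D + 1) + D < M * (3 * D + 3) + 1 := by
    have : 1 * (3 * D + 3) ≤ M * (3 * D + 3) := Nat.mul_le_mul_right _ hM
    omega
  have hcop : Nat.Coprime M (M * (3 * D + 3) + 1) := by simp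
  have key := hinv (D + 1) (M * (3 * D + 3) + 1) (by omega) hn hcop true false
    (fun _ x => x ≤ D + 1) (fun k x => if k = 1 then x ≤ D + 1 else x = D + 1) 0 0 (by
      intro j hj
      have h0 : (0 + j) % (M * (3 * D + 3) + 1) = j := by
        rw [zero_add, Nat.mod_eq_of_lt (by omega)]
      have e1 : cA (D + 1) true = D + 1 := rfl
      have e2 : cA (D + 1) false = 2 * (D + 1) := rfl
      have e3 : cB (D + 1) true = 2 * (D + 1) := rfl
      have e4 : cB (D + 1) false = D + 1 := rfl
      rw [h0, e1, e2, e3, e4]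
      omega)
  have hθ : (cm.{u} (M * (3 * D + 3) + 1) (D + 1) true fun _ x => x ≤ D + 1).sat θ ⟨0⟩ :=
    (sat_imp _ _ _ _).1 (h2 _ _ _) (phi0_holds (by omega) (by omega))
  have hθ' := key.1 hθ
  exact (sat_imp _ _ _ _).1 (h3 _ _ _) hθ' (chi0_holds (by omega) (by omega))

end Pool.Agent.Results.MP_7a64d7_lc.TestFreeNoCraig
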